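import Pool.Agent.H961R2.Lev.Stubs

open MeasureTheory Set Filter Topology InnerProductSpace Complex

namespace H961Lev.M3

lemma kp_pos {δ : ℝ} (h0 : 0 < δ) (h1 : δ < 1) : 0 < kp δ := by
  unfold kp
  apply Real.sin_pos_of_pos_of_lt_pi
  · positivity
  · nlinarith [Real.pi_pos]

lemma kp_lt_one {δ : ℝ} (h0 : 0 < δ) (h1 : δ < 1) : kp δ < 1 := by
  have h2 : kp δ = Real.sin (Real.pi * δ / 2) := rfl
  rw [h2, ← Real.sin_pi_div_two]
  apply Real.sin_lt_sin_of_lt_of_le_pi_div_two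
  · nlinarith [Real.pi_pos]
  · exact le_rfl
  · nlinarith [Real.pi_pos]

lemma cval_eq {δ : ℝ} (h0 : 0 < δ) (h1 : δ < 1) : Ut δ 0 = cval δ := by
  have hk := kp_pos h0 h1
  have hk1 := kp_lt_one h0 h1
  have hπ := Real.pi_pos
  have e1 : ‖Complex.cos (Real.pi * 0) - (kp δ : ℂ)‖ = 1 - kp δ := by
    rw [mul_zero, Complex.cos_zero]
    have : (1 : ℂ) - (kp δ : ℂ) = ((1 - kp δ : ℝ) : ℂ) := by push_cast; ring
    rw [this, Complex.norm_real, Real.norm_eq_abs, abs_of_pos (by linarith)]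
  have e2 : ‖Complex.cos (Real.pi * 0) + (kp δ : ℂ)‖ = 1 + kp δ := by
    rw [mul_zero, Complex.cos_zero]
    have : (1 : ℂ) + (kp δ : ℂ) = ((1 + kp δ : ℝ) : ℂ) := by push_cast; ring
    rw [this, Complex.norm_real, Real.norm_eq_abs, abs_of_pos (by linarith)]
  unfold Ut cval
  rw [e1, e2]
  congr 1
  unfold Real.arcosh
  congr 1
  set θ := Real.pi * δ / 4 with hθ
  have hθ0 : 0 < θ := by positivity
  have hθ1 : θ < Real.pi / 4 := by rw [hθ]; nlinarith
  have hs : 0 < Real.sin θ := Real.sin_pos_of_pos_of_lt_pi hθ0 (by linarith)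
  have hc : 0 < Real.cos θ := Real.cos_pos_of_mem_Ioo ⟨by linarith, by linarith⟩
  have hkk : kp δ = 2 * Real.sin θ * Real.cos θ := by
    rw [← Real.sin_two_mul, hθ]
    unfold kp
    congr 1
    ring
  have hc2 : 0 < Real.cos (2 * θ) := Real.cos_pos_of_mem_Ioo ⟨by linarith, by linarith⟩
  have h3 : (1 - kp δ + (1 + kp δ)) / (2 * kp δ) = 1 / kp δ := by
    field_simp
    ring
  have h4 : (1 / kp δ) ^ 2 - 1 = (Real.cos (2 * θ) / kp δ) ^ 2 := by
    have h5 : Real.cos (2 * θ) ^ 2 = 1 - kp δ ^ 2 := by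
      rw [hkk, ← Real.sin_two_mul]
      have := Real.sin_sq_add_cos_sq (2 * θ)
      linarith
    rw [div_pow, div_pow, h5]
    field_simp
  rw [h3, h4, Real.sqrt_sq (by positivity), Real.cot_eq_cos_div_sin, hkk, Real.cos_two_mul]
  field_simp
  ring

lemma cval_pos {δ : ℝ} (h0 : 0 < δ) (h1 : δ < 1) : 0 < cval δ := by
  have hπ := Real.pi_pos
  unfold cval
  apply div_pos _ hπ
  apply Real.log_pos
  have hθ0 : 0 < Real.pi * δ / 4 := by positivity
  have hθ1 : Real.pi * δ / 4 < Real.pi / 4 := by nlinarith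
  have hs : 0 < Real.sin (Real.pi * δ / 4) := Real.sin_pos_of_pos_of_lt_pi hθ0 (by linarith)
  rw [Real.cot_eq_cos_div_sin, lt_div_iff₀ hs, one_mul]
  have h2 : Real.sin (Real.pi * δ / 4) < Real.sin (Real.pi / 4) :=
    Real.sin_lt_sin_of_lt_of_le_pi_div_two (by linarith) (by linarith) hθ1
  have h3 : Real.cos (Real.pi / 4) < Real.cos (Real.pi * δ / 4) :=
    Real.cos_lt_cos_of_nonneg_of_le_pi_div_two (by linarith) (by linarith) hθ1
  rw [Real.sin_pi_div_four] at h2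
  rw [Real.cos_pi_div_four] at h3
  linarith

lemma Et_eq (δ : ℝ) : Et δ = {x : ℝ | ‖(x : UnitAddCircle)‖ ≤ δ / 2} := by
  ext x
  simp only [Et, mem_ofPred_eq, UnitAddCircle.norm_eq]
  constructor
  · rintro ⟨n, hn⟩
    exact (round_le x n).trans hn
  · intro h
    exact ⟨round x, h⟩

lemma Et_closed (δ : ℝ) : IsClosed (Et δ) := by
  rw [Et_eq]
  have h : Continuous (fun x : ℝ => ‖(x : UnitAddCircle)‖) :=
    continuous_norm.comp (AddCircle.continuous_mk' 1)
  exact isClosed_le h continuous_const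

lemma Et_vol {δ : ℝ} (_h0 : 0 < δ) (h1 : δ < 1) (a : ℝ) :
    ENNReal.ofReal δ ≤ volume (Et δ ∩ Icc a (a + 1)) := by
  set n := round a with hn
  have hr : |a - n| ≤ 1 / 2 := abs_sub_round a
  rw [abs_le] at hr
  obtain ⟨hr1, hr2⟩ := hr
  by_cases c1 : a - n ≤ -(δ / 2)
  · have hsub : Icc ((n : ℝ) - δ / 2) (n + δ / 2) ⊆ Et δ ∩ Icc a (a + 1) := by
      intro x hx
      refine ⟨⟨n, ?_⟩, ?_, ?_⟩
      · rw [abs_le]; constructor <;> linarith [hx.1, hx.2]
      · linarith [hx.1]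
      · linarith [hx.2]
    refine le_trans (le_of_eq ?_) (measure_mono hsub)
    rw [Real.volume_Icc]
    congr 1
    ring
  · push Not at c1
    by_cases c2 : a - n < δ / 2
    · have hsub : Icc a (n + δ / 2) ∪ Icc ((n : ℝ) + 1 - δ / 2) (a + 1) ⊆
          Et δ ∩ Icc a (a + 1) := by
        rintro x (hx | hx)
        · refine ⟨⟨n, ?_⟩, ?_, ?_⟩
          · rw [abs_le]; constructor <;> linarith [hx.1, hx.2]
          · linarith [hx.1]
          · linarith [hx.2]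
        · refine ⟨⟨n + 1, ?_⟩, ?_, ?_⟩
          · push_cast
            rw [abs_le]; constructor <;> linarith [hx.1, hx.2]
          · linarith [hx.1]
          · linarith [hx.2]
      refine le_trans (le_of_eq ?_) (measure_mono hsub)
      rw [measure_union _ measurableSet_Icc, Real.volume_Icc, Real.volume_Icc,
        ← ENNReal.ofReal_add (by linarith) (by linarith)]
      · congr 1
        ring
      · rw [Set.disjoint_left]
        intro x hx hx'
        linarith [hx.2, hx'.1]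
    · push Not at c2
      have hsub : Icc ((n : ℝ) + 1 - δ / 2) (n + 1 + δ / 2) ⊆ Et δ ∩ Icc a (a + 1) := by
        intro x hx
        refine ⟨⟨n + 1, ?_⟩, ?_, ?_⟩
        · push_cast
          rw [abs_le]; constructor <;> linarith [hx.1, hx.2]
        · linarith [hx.1]
        · linarith [hx.2]
      refine le_trans (le_of_eq ?_) (measure_mono hsub)
      rw [Real.volume_Icc]
      congr 1
      ring

lemma Eh_eq (δ : ℝ) : Eh δ = (fun x : ℝ => x - 1 / 2) ⁻¹' (Et δ) := by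
  ext x
  simp only [Eh, Et, mem_ofPred_eq, mem_preimage]
  constructor
  · rintro ⟨n, hn⟩
    refine ⟨n, ?_⟩
    have : x - 1 / 2 - n = x - (n + 1 / 2) := by ring
    rw [this]; exact hn
  · rintro ⟨n, hn⟩
    refine ⟨n, ?_⟩
    have : x - 1 / 2 - n = x - (n + 1 / 2) := by ring
    rw [← this]; exact hn

lemma Eh_closed (δ : ℝ) : IsClosed (Eh δ) := by
  rw [Eh_eq]
  exact (Et_closed δ).preimage (continuous_id.sub continuous_const)

lemma Eh_vol {δ : ℝ} (h0 : 0 < δ) (h1 : δ < 1) (a : ℝ) :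
    ENNReal.ofReal δ ≤ volume (Eh δ ∩ Icc a (a + 1)) := by
  have h := Et_vol h0 h1 (a - 1 / 2)
  have h2 : Eh δ ∩ Icc a (a + 1) = (fun x : ℝ => x - 1 / 2) ⁻¹'
      (Et δ ∩ Icc (a - 1 / 2) (a - 1 / 2 + 1)) := by
    rw [Set.preimage_inter, ← Eh_eq]
    congr 1
    ext x
    simp only [mem_Icc, mem_preimage]
    constructor
    · rintro ⟨h3, h4⟩; exact ⟨by linarith, by linarith⟩
    · rintro ⟨h3, h4⟩; exact ⟨by linarith, by linarith⟩
  rw [h2]
  rw [(measurePreserving_sub_right (volume : Measure ℝ) (1 / 2 : ℝ)).measure_preimage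
    ((Et_closed δ).measurableSet.inter measurableSet_Icc).nullMeasurableSet]
  exact h

lemma Ut_refl (δ : ℝ) (z : ℂ) : Ut δ (-(starRingEnd ℂ) z) = Ut δ z := by
  have h1 : Complex.cos (Real.pi * (-(starRingEnd ℂ) z)) =
      (starRingEnd ℂ) (Complex.cos (Real.pi * z)) := by
    rw [mul_neg, Complex.cos_neg, ← Complex.cos_conj, map_mul, Complex.conj_ofReal]
  have h2 : ∀ w : ℂ, ‖(starRingEnd ℂ) w - (kp δ : ℂ)‖ = ‖w - (kp δ : ℂ)‖ := by
    intro w
    have : (starRingEnd ℂ) w - (kp δ : ℂ) = (starRingEnd ℂ) (w - (kp δ : ℂ)) := by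
      rw [map_sub, Complex.conj_ofReal]
    rw [this, Complex.norm_conj]
  have h3 : ∀ w : ℂ, ‖(starRingEnd ℂ) w + (kp δ : ℂ)‖ = ‖w + (kp δ : ℂ)‖ := by
    intro w
    have : (starRingEnd ℂ) w + (kp δ : ℂ) = (starRingEnd ℂ) (w + (kp δ : ℂ)) := by
      rw [map_add, Complex.conj_ofReal]
    rw [this, Complex.norm_conj]
  unfold Ut
  rw [h1, h2, h3]

lemma Ut_per (δ : ℝ) (z : ℂ) : Ut δ (z + 1) = Ut δ z := by
  have h1 : Complex.cos (Real.pi * (z + 1)) = -Complex.cos (Real.pi * z) := by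
    rw [mul_add, mul_one, Complex.cos_add_pi]
  unfold Ut
  rw [h1]
  have h2 : ‖-Complex.cos (Real.pi * z) - (kp δ : ℂ)‖ = ‖Complex.cos (Real.pi * z) + (kp δ : ℂ)‖ := by
    rw [← norm_neg]
    congr 1
    ring
  have h3 : ‖-Complex.cos (Real.pi * z) + (kp δ : ℂ)‖ = ‖Complex.cos (Real.pi * z) - (kp δ : ℂ)‖ := by
    rw [← norm_neg]
    congr 1
    ring
  rw [h2, h3, add_comm]

lemma arg_ge_one {k : ℝ} (hk : 0 < k) (w : ℂ) :
    1 ≤ (‖w - (k : ℂ)‖ + ‖w + (k : ℂ)‖) / (2 * k) := by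
  rw [le_div_iff₀ (by positivity), one_mul]
  have h1 : ‖(w + (k : ℂ)) - (w - (k : ℂ))‖ ≤ ‖w + (k : ℂ)‖ + ‖w - (k : ℂ)‖ := norm_sub_le _ _
  have h2 : (w + (k : ℂ)) - (w - (k : ℂ)) = ((2 * k : ℝ) : ℂ) := by push_cast; ring
  rw [h2, Complex.norm_real, Real.norm_eq_abs, abs_of_pos (by positivity)] at h1
  linarith

lemma Ut_real (δ : ℝ) (x : ℝ) : Ut δ x =
    Real.arcosh ((|Real.cos (Real.pi * x) - kp δ| + |Real.cos (Real.pi * x) + kp δ|) /
      (2 * kp δ)) / Real.pi := by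
  unfold Ut
  have h1 : Complex.cos (Real.pi * x) = ((Real.cos (Real.pi * x) : ℝ) : ℂ) := by
    rw [← Complex.ofReal_mul, ← Complex.ofReal_cos]
  rw [h1, ← Complex.ofReal_sub, ← Complex.ofReal_add, Complex.norm_real, Complex.norm_real,
    Real.norm_eq_abs, Real.norm_eq_abs]

theorem main : S_M3 := by
  intro δ h0 h1
  have hk := kp_pos h0 h1
  have hk1 := kp_lt_one h0 h1
  refine ⟨cval_eq h0 h1, cval_pos h0 h1, ⟨Et_closed δ, Et_vol h0 h1⟩, ⟨Eh_closed δ, Eh_vol h0 h1⟩,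
    Ut_refl δ, Ut_per δ, ?_⟩
  intro x
  constructor
  · unfold Ut
    exact div_nonneg (Real.arcosh_nonneg (arg_ge_one hk _)) Real.pi_pos.le
  · have h2 : Ut δ 0 = Ut δ ((0 : ℝ) : ℂ) := by simp
    rw [h2, Ut_real, Ut_real]
    apply div_le_div_of_nonneg_right _ Real.pi_pos.le
    have h3 := Real.cos_le_one (Real.pi * x)
    have h4 := Real.neg_one_le_cos (Real.pi * x)
    set c := Real.cos (Real.pi * x) with hc
    have e1 : |c - kp δ| + |c + kp δ| ≤ 2 := by
      rcases abs_cases (c - kp δ) with ⟨a1, _⟩ | ⟨a1, _⟩ <;>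
      rcases abs_cases (c + kp δ) with ⟨a2, _⟩ | ⟨a2, _⟩ <;> rw [a1, a2] <;> linarith
    have e2 : |Real.cos (Real.pi * 0) - kp δ| + |Real.cos (Real.pi * 0) + kp δ| = 2 := by
      rw [mul_zero, Real.cos_zero, abs_of_pos (by linarith), abs_of_pos (by linarith)]
      ring
    rw [e2]
    have e3 : 2 * kp δ ≤ |c - kp δ| + |c + kp δ| := by
      rcases abs_cases (c - kp δ) with ⟨a1, _⟩ | ⟨a1, _⟩ <;>
      rcases abs_cases (c + kp δ) with ⟨a2, _⟩ | ⟨a2, _⟩ <;> rw [a1, a2] <;> linarith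
    have e4 : 0 < (|c - kp δ| + |c + kp δ|) / (2 * kp δ) := div_pos (by linarith) (by positivity)
    rw [Real.arcosh_le_arcosh e4 (by positivity)]
    exact div_le_div_of_nonneg_right e1 (by positivity)

end H961Lev.M3

namespace H961Lev

theorem T_M3 : S_M3 := M3.main

end H961Lev
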