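import Pool.Agent.H532R2.Lev.M3

open MeasureTheory Set Filter Topology InnerProductSpace Complex

namespace H961Lev.M5

open H961Lev.M3

/-- concavity bound for arcosh -/
lemma arcosh_add_le {v e q : ℝ} (hq : 0 < q) (hv : 1 + q ≤ v) (he : 0 ≤ e) :
    Real.arcosh (v + e) ≤ Real.arcosh v + e / √(q ^ 2 + 2 * q) := by
  unfold Real.arcosh
  set s := √((v + e) ^ 2 - 1) with hs
  set s0 := √(v ^ 2 - 1) with hs0
  have h1 : 0 < v ^ 2 - 1 := by nlinarith
  have h2 : 0 < (v + e) ^ 2 - 1 := by nlinarith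
  have hs0p : 0 < s0 := Real.sqrt_pos.2 h1
  have hsp : 0 < s := Real.sqrt_pos.2 h2
  have hs0q : √(q ^ 2 + 2 * q) ≤ s0 := Real.sqrt_le_sqrt (by nlinarith)
  have hqp : 0 < √(q ^ 2 + 2 * q) := Real.sqrt_pos.2 (by positivity)
  have hs2 : s ^ 2 = (v + e) ^ 2 - 1 := Real.sq_sqrt h2.le
  have hs02 : s0 ^ 2 = v ^ 2 - 1 := Real.sq_sqrt h1.le
  have hv0 : 0 < v := by linarith
  have key : s * s0 ≤ (v + e) * v - 1 := by
    apply le_of_sq_le_sq _ (by nlinarith)
    rw [mul_pow, hs2, hs02]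
    nlinarith [sq_nonneg e]
  have h3 : Real.log (v + e + s) - Real.log (v + s0) ≤ e / s0 := by
    rw [← Real.log_div (by positivity) (by positivity)]
    refine (Real.log_le_sub_one_of_pos (by positivity)).trans ?_
    rw [div_sub_one (by positivity), div_le_div_iff₀ (by positivity) hs0p]
    nlinarith
  have h4 : e / s0 ≤ e / √(q ^ 2 + 2 * q) := div_le_div_of_nonneg_left he hqp hs0q
  linarith

/-- `sqrt (p^2 + t^2) ≤ p + t^2/(2p)` -/
lemma norm_le_add {p t : ℝ} (hp : 0 < p) : √(p ^ 2 + t ^ 2) ≤ p + t ^ 2 / (2 * p) := by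
  apply Real.sqrt_le_iff.2
  constructor
  · positivity
  · have h : (p + t ^ 2 / (2 * p)) ^ 2 = p ^ 2 + t ^ 2 + (t ^ 2 / (2 * p)) ^ 2 := by
      field_simp
      ring
    rw [h]
    nlinarith [sq_nonneg (t ^ 2 / (2 * p))]

lemma exp_bounds {t : ℝ} (h0 : 0 ≤ t) (h1 : t ≤ 1) :
    Real.cosh t ≤ 1 + t ^ 2 ∧ Real.sinh t ≤ 2 * t ∧ 0 ≤ Real.sinh t ∧ 1 ≤ Real.cosh t := by
  have e1 := Real.abs_exp_sub_one_sub_id_le (x := t) (by rw [abs_of_nonneg h0]; exact h1)
  have e2 := Real.abs_exp_sub_one_sub_id_le (x := -t) (by rw [abs_neg, abs_of_nonneg h0]; exact h1)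
  rw [abs_le] at e1 e2
  rw [Real.cosh_eq, Real.sinh_eq]
  refine ⟨?_, ?_, ?_, ?_⟩
  · nlinarith [e1.2, e2.2]
  · nlinarith [e1.2, e2.1]
  · have h3 := Real.exp_le_exp.2 (show -t ≤ t by linarith)
    linarith
  · rw [← Real.cosh_eq]; exact Real.one_le_cosh t

/-- the central estimate, for `cos (π x) > 0` -/
lemma core {k A0 A s t : ℝ} (hk : 0 < k) (hA0 : k < A0) (hA : A0 ≤ A) (hA1 : A ≤ 1) (hs : s ^ 2 ≤ 1)
    (h0 : 0 ≤ t) (h1 : t ≤ 1) :
    Real.arcosh ((√((A * Real.cosh t - k) ^ 2 + (s * Real.sinh t) ^ 2) +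
      √((A * Real.cosh t + k) ^ 2 + (s * Real.sinh t) ^ 2)) / (2 * k)) ≤
    Real.arcosh (A / k) + (t ^ 2 * (1 / k + 2 / (k * (A0 - k)))) /
      √(((A0 - k) / k) ^ 2 + 2 * ((A0 - k) / k)) := by
  obtain ⟨c1, c2, c3, c4⟩ := exp_bounds h0 h1
  have hA0' : 0 < A0 - k := by linarith
  have hAc : A ≤ A * Real.cosh t := by nlinarith
  have hAk : 0 < A * Real.cosh t - k := by linarith
  have hAk2 : 0 < A * Real.cosh t + k := by linarith
  have n1 := norm_le_add (t := s * Real.sinh t) hAk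
  have n2 := norm_le_add (t := s * Real.sinh t) hAk2
  have hss : (s * Real.sinh t) ^ 2 ≤ 4 * t ^ 2 := by
    rw [mul_pow]
    have : Real.sinh t ^ 2 ≤ 4 * t ^ 2 := by nlinarith
    nlinarith [sq_nonneg s, sq_nonneg (Real.sinh t)]
  have m1 : (s * Real.sinh t) ^ 2 / (2 * (A * Real.cosh t - k)) ≤ 4 * t ^ 2 / (2 * (A0 - k)) :=
    div_le_div₀ (by positivity) hss (by positivity) (by linarith)
  have m2 : (s * Real.sinh t) ^ 2 / (2 * (A * Real.cosh t + k)) ≤ 4 * t ^ 2 / (2 * (A0 - k)) :=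
    div_le_div₀ (by positivity) hss (by positivity) (by linarith)
  have hAct : A * Real.cosh t ≤ A + t ^ 2 := by nlinarith
  have hsum : (√((A * Real.cosh t - k) ^ 2 + (s * Real.sinh t) ^ 2) +
      √((A * Real.cosh t + k) ^ 2 + (s * Real.sinh t) ^ 2)) / (2 * k) ≤
      A / k + t ^ 2 * (1 / k + 2 / (k * (A0 - k))) := by
    rw [div_le_iff₀ (by positivity)]
    have e : (A / k + t ^ 2 * (1 / k + 2 / (k * (A0 - k)))) * (2 * k) =
        2 * A + 2 * t ^ 2 + 2 * (4 * t ^ 2 / (2 * (A0 - k))) := by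
      field_simp
      ring
    rw [e]
    linarith
  have hpos : 0 < (√((A * Real.cosh t - k) ^ 2 + (s * Real.sinh t) ^ 2) +
      √((A * Real.cosh t + k) ^ 2 + (s * Real.sinh t) ^ 2)) / (2 * k) := by
    apply div_pos _ (by positivity)
    have : 0 < √((A * Real.cosh t - k) ^ 2 + (s * Real.sinh t) ^ 2) :=
      Real.sqrt_pos.2 (by positivity)
    positivity
  have hA0k : 0 < A := by linarith
  have he : 0 ≤ t ^ 2 * (1 / k + 2 / (k * (A0 - k))) := by positivity
  have hpos2 : 0 < A / k + t ^ 2 * (1 / k + 2 / (k * (A0 - k))) := by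
    have : 0 < A / k := by positivity
    linarith
  refine ((Real.arcosh_le_arcosh hpos hpos2).2 hsum).trans ?_
  apply arcosh_add_le (by positivity) _ he
  have e5 : 1 + (A0 - k) / k = A0 / k := by
    field_simp
    ring
  rw [e5]
  exact div_le_div_of_nonneg_right hA hk.le

lemma nrm1 (a b k : ℝ) : ‖(a : ℂ) - (b : ℂ) * I - (k : ℂ)‖ = √((a - k) ^ 2 + b ^ 2) := by
  rw [Complex.norm_eq_sqrt_sq_add_sq]
  congr 1
  simp

lemma nrm2 (a b k : ℝ) : ‖(a : ℂ) - (b : ℂ) * I + (k : ℂ)‖ = √((a + k) ^ 2 + b ^ 2) := by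
  rw [Complex.norm_eq_sqrt_sq_add_sq]
  congr 1
  simp

lemma Ut_sub_int (δ : ℝ) (z : ℂ) (n : ℤ) : Ut δ (z - n) = Ut δ z := by
  have h : Function.Periodic (Ut δ) 1 := Ut_per δ
  have := h.sub_int_mul_eq (x := z) n
  rwa [mul_one] at this

theorem main : S_M5 := by
  intro δ ρ h0 h1 hρ0 hρ1
  have hk := kp_pos h0 h1
  have hk1 := kp_lt_one h0 h1
  have hπ := Real.pi_pos
  set k := kp δ with hkdef
  set A0 := Real.cos (Real.pi * ρ) with hA0def
  have hkA0 : k < A0 := by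
    rw [hkdef, hA0def]
    unfold kp
    rw [← Real.cos_pi_div_two_sub]
    apply Real.cos_lt_cos_of_nonneg_of_le_pi
    · positivity
    · nlinarith
    · nlinarith
  have hA0' : 0 < A0 - k := by linarith
  refine ⟨Real.pi ^ 2 * ((1 / k + 2 / (k * (A0 - k))) /
      √(((A0 - k) / k) ^ 2 + 2 * ((A0 - k) / k))) / Real.pi, 1 / Real.pi, ?_, by positivity, ?_⟩
  · positivity
  · intro n x h hx hh0 hh1
    have hx' : Ut δ (x + h * I) = Ut δ (((x - n : ℝ) : ℂ) + h * I) := by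
      rw [← Ut_sub_int δ (x + h * I) n]
      congr 1
      push_cast
      ring
    have hx'' : Ut δ x = Ut δ ((x - n : ℝ) : ℂ) := by
      rw [← Ut_sub_int δ x n]
      congr 1
      push_cast
      ring
    rw [hx', hx'']
    generalize hy : x - n = y at hx
    set A := Real.cos (Real.pi * y) with hA
    have hAA0 : A0 ≤ A := by
      rw [hA, hA0def, ← Real.cos_abs (Real.pi * y), abs_mul, abs_of_pos hπ]
      apply Real.cos_le_cos_of_nonneg_of_le_pi
      · positivity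
      · nlinarith
      · exact mul_le_mul_of_nonneg_left hx hπ.le
    have hA1 : A ≤ 1 := Real.cos_le_one _
    have hs : (Real.sin (Real.pi * y)) ^ 2 ≤ 1 := Real.sin_sq_le_one _
    have ht0 : 0 ≤ Real.pi * h := by positivity
    have ht1 : Real.pi * h ≤ 1 := by
      have := mul_le_mul_of_nonneg_left hh1 hπ.le
      rwa [mul_one_div_cancel hπ.ne'] at this
    have hc := core hk hkA0 hAA0 hA1 hs ht0 ht1
    have hcos : Complex.cos (Real.pi * ((y : ℂ) + h * I)) =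
        ((Real.cos (Real.pi * y) * Real.cosh (Real.pi * h) : ℝ) : ℂ) -
        ((Real.sin (Real.pi * y) * Real.sinh (Real.pi * h) : ℝ) : ℂ) * I := by
      have e : (Real.pi * ((y : ℂ) + h * I)) = ((Real.pi * y : ℝ) : ℂ) + ((Real.pi * h : ℝ) : ℂ) * I := by
        push_cast; ring
      rw [e, Complex.cos_add_mul_I, ← Complex.ofReal_cos, ← Complex.ofReal_sin,
        ← Complex.ofReal_cosh, ← Complex.ofReal_sinh, Complex.ofReal_mul, Complex.ofReal_mul]
    have n1 : ‖Complex.cos (Real.pi * ((y : ℂ) + h * I)) - (k : ℂ)‖ =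
        √((A * Real.cosh (Real.pi * h) - k) ^ 2 +
          (Real.sin (Real.pi * y) * Real.sinh (Real.pi * h)) ^ 2) := by
      rw [hcos, nrm1]
    have n2 : ‖Complex.cos (Real.pi * ((y : ℂ) + h * I)) + (k : ℂ)‖ =
        √((A * Real.cosh (Real.pi * h) + k) ^ 2 +
          (Real.sin (Real.pi * y) * Real.sinh (Real.pi * h)) ^ 2) := by
      rw [hcos, nrm2]
    have hA0pos : 0 < A - k := by linarith
    have hU0 : Ut δ ((y : ℝ) : ℂ) = Real.arcosh (A / k) / Real.pi := by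
      rw [Ut_real, ← hkdef, ← hA, abs_of_pos hA0pos, abs_of_pos (by linarith)]
      congr 2
      field_simp
      ring
    have hU1 : Ut δ ((y : ℂ) + h * I) =
        Real.arcosh ((√((A * Real.cosh (Real.pi * h) - k) ^ 2 +
          (Real.sin (Real.pi * y) * Real.sinh (Real.pi * h)) ^ 2) +
          √((A * Real.cosh (Real.pi * h) + k) ^ 2 +
          (Real.sin (Real.pi * y) * Real.sinh (Real.pi * h)) ^ 2)) / (2 * k)) / Real.pi := by
      unfold Ut
      rw [← hkdef, n1, n2]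
    rw [hU0, hU1]
    refine (div_le_div_of_nonneg_right hc hπ.le).trans (le_of_eq ?_)
    field_simp

end H961Lev.M5

namespace H961Lev

theorem T_M5 : S_M5 := M5.main

end H961Lev
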